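import Pool.Agent.N71.RP.Stm
import Pool.Agent.H38R2.CG.N3a
import Pool.Agent.H38R2.CG.KR
import Pool.Agent.H38R2.CG.PV
import Pool.Agent.N478.EX.MER

/-!
Project RP (helper71), part REP: repulsion (helper31).
-/

set_option autoImplicit false

namespace Pool.Agent.N31.RP

open Finset Filter NumberField Pool.Agent.H38R2.CG
open Pool.Agent.N71.RP (E_COMB E_CHR E_REP la)
open Pool.Agent.N71.EX (PE)
open scoped Classical

lemma exp_le (x : ℝ) (h0 : 0 ≤ x) (h1 : x ≤ 1 / 2) : Real.exp (-(2 * x)) ≤ 1 - x := by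
  have h2 := Real.add_one_le_exp (2 * x)
  rw [Real.exp_neg]
  have h3 : 0 < 2 * x + 1 := by linarith
  refine (inv_anti₀ h3 h2).trans ?_
  rw [inv_le_iff_one_le_mul₀ h3]
  nlinarith

lemma tail (A : ℝ) : ∃ c : ℝ, 0 < c ∧ ∀ D X : ℕ, 2 ≤ D → D ≤ X →
    (X : ℝ) ≤ (D : ℝ) ^ A → c ≤ ∏ p ∈ (Ioc D X).filter Nat.Prime, (1 - 1 / (p : ℝ)) := by
  obtain ⟨C, hC0, hC⟩ := Pool.Agent.Helper923.HMertens.mertens_ratio
  have hl2 : 0 < Real.log 2 := Real.log_pos (by norm_num)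
  refine ⟨Real.exp (-(2 * (Real.log A + C / Real.log 2))), Real.exp_pos _,
    fun D X hD hDX hX => ?_⟩
  have h1 : ∀ p ∈ (Ioc D X).filter Nat.Prime,
      Real.exp (-(2 * (1 / (p : ℝ)))) ≤ 1 - 1 / (p : ℝ) := by
    intro p hp
    have hp2 : (2 : ℝ) ≤ p := by exact_mod_cast (mem_filter.1 hp).2.two_le
    exact exp_le _ (by positivity) (one_div_le_one_div_of_le (by norm_num) hp2)
  have h2 := Finset.prod_le_prod (fun p _ => (Real.exp_pos _).le) h1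
  refine le_trans ?_ h2
  rw [← Real.exp_sum]
  apply Real.exp_le_exp.2
  rw [Finset.sum_neg_distrib, ← Finset.mul_sum]
  have h3 := (abs_le.1 (hC D X hD hDX)).2
  have hDr : (2 : ℝ) ≤ D := by exact_mod_cast hD
  have hXr : (2 : ℝ) ≤ X := by exact_mod_cast hD.trans hDX
  have hlD : 0 < Real.log D := Real.log_pos (by linarith)
  have hlX : 0 < Real.log X := Real.log_pos (by linarith)
  have hlD2 : Real.log 2 ≤ Real.log D := Real.log_le_log (by norm_num) hDr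
  have h4 : C / Real.log D ≤ C / Real.log 2 := div_le_div_of_nonneg_left hC0 hl2 hlD2
  have h5 : Real.log X / Real.log D ≤ A := by
    rw [div_le_iff₀ hlD]
    have h7 : Real.log X ≤ Real.log ((D : ℝ) ^ A) := Real.log_le_log (by linarith) hX
    rwa [Real.log_rpow (by linarith)] at h7
  have h6 : Real.log (Real.log X / Real.log D) ≤ Real.log A :=
    Real.log_le_log (div_pos hlX hlD) h5
  linarith

lemma PE_pos (D : ℕ) : 0 < PE D D :=
  Finset.prod_pos fun _ hp => inv_pos.2 (Pool.Agent.N478.EX.fac D (mem_filter.1 hp).2).2.1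

/-- **REP** -/
theorem t_REP (hCOMB : E_COMB) (hCHR : E_CHR) (hSIE : Pool.Agent.N71.BI.E_SIE) : E_REP := by
  intro A hA
  obtain ⟨C1, hC1, hN3⟩ := T_N3a T_KR T_PV
  obtain ⟨c1, hc1, hS⟩ := hSIE 1 one_pos
  obtain ⟨c2, X0, hc2, hX0, hcomb⟩ := hCOMB
  obtain ⟨cA, hcA, htail⟩ := tail A
  obtain ⟨C3, hC3, hM⟩ := Pool.Agent.N478.EX.mertens_prod
  obtain ⟨C4, hC4, hPEU⟩ := Pool.Agent.N478.EX.t_PEU
  obtain ⟨X1, hX1⟩ : ∃ X1 : ℕ, max (max (C1 / c1 + 1) (2 * C3 * C1 / c2)) X0 ≤ (X1 : ℝ) :=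
    exists_nat_ge _
  have hX1a : C1 / c1 + 1 ≤ X1 := (le_max_left _ _).trans ((le_max_left _ _).trans hX1)
  have hX1b : 2 * C3 * C1 / c2 ≤ X1 := (le_max_right _ _).trans ((le_max_left _ _).trans hX1)
  have hX1c : X0 ≤ X1 := by exact_mod_cast (le_max_right _ _).trans hX1
  have hX10 : (1 : ℝ) ≤ X1 := by
    have : 0 ≤ C1 / c1 := by positivity
    linarith
  have hX1pos : (0 : ℝ) < X1 := by linarith
  have hSi : ∀ D : ℕ, IsFund D → c1 / D ≤ Lone D := by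
    intro D hD
    have h := hS D hD
    rwa [Real.rpow_neg_one, ← div_eq_mul_inv] at h
  refine ⟨min (c2 / 2 * cA) (c1 / (C4 * (X1 : ℝ) ^ 2)), lt_min (by positivity) (by positivity),
    fun D₁ D₂ hF₁ hF₂ h12 hAA => ?_⟩
  by_cases hbig : X1 ≤ D₂
  swap
  · -- small discriminants
    right
    refine (min_le_right _ _).trans ?_
    rw [le_div_iff₀ (PE_pos D₂)]
    refine le_trans ?_ (hSi D₂ hF₂)
    have hD1 : (1 : ℝ) < D₂ := by exact_mod_cast hF₂.1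
    have hD0 : (0 : ℝ) < D₂ := by linarith
    have hlt : (D₂ : ℝ) ≤ X1 := by exact_mod_cast (not_le.1 hbig).le
    have h1 : PE D₂ D₂ ≤ C4 * D₂ := (hPEU D₂ hF₂).trans
      (mul_le_mul_of_nonneg_left (Real.log_le_self hD0.le) hC4.le)
    calc c1 / (C4 * (X1 : ℝ) ^ 2) * PE D₂ D₂ ≤ c1 / (C4 * (X1 : ℝ) ^ 2) * (C4 * D₂) := by
          gcongr
      _ = c1 * D₂ / (X1 : ℝ) ^ 2 := by
          field_simp
      _ ≤ c1 / D₂ := by
          rw [div_le_div_iff₀ (by positivity) hD0]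
          have h2 : (D₂ : ℝ) * D₂ ≤ (X1 : ℝ) ^ 2 := by nlinarith
          nlinarith
  -- large discriminants
  have hXr : (X1 : ℝ) ≤ D₂ := by exact_mod_cast hbig
  have hX2 : 2 ≤ D₂ := hF₂.1
  have hX2r : (2 : ℝ) ≤ D₂ := by exact_mod_cast hX2
  have hXpos : (0 : ℝ) < D₂ := by linarith
  have hX13 : (D₂ : ℝ) ≤ (D₂ : ℝ) ^ 13 := le_self_pow₀ (by linarith) (by norm_num)
  have good : ∀ D : ℕ, IsFund D → D ≤ D₂ → (D₂ : ℝ) ≤ (D : ℝ) ^ A →
      0 < la (fun n => (chi D n : ℝ)) (D₂ ^ 16) ∧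
      (c2 * Pool.Agent.N71.RP.PP (fun n => (chi D n : ℝ)) D₂ ≤
        la (fun n => (chi D n : ℝ)) (D₂ ^ 16) → c2 / 2 * cA ≤ Lone D / PE D D) := by
    intro D hD hDX hXA
    have hD1 : (1 : ℝ) < D := by exact_mod_cast hD.1
    have hD0 : (0 : ℝ) < D := by linarith
    have hDXr : (D : ℝ) ≤ D₂ := by exact_mod_cast hDX
    have hla : |Lone D - la (fun n => (chi D n : ℝ)) (D₂ ^ 16)| ≤ C1 / (D₂ : ℝ) ^ 14 := by
      refine (hN3 D hD (D₂ ^ 16) (Nat.one_le_pow _ _ (by omega))).trans ?_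
      have h1 : √(D : ℝ) ≤ D₂ := by
        refine le_trans ?_ hDXr
        rw [Real.sqrt_le_left hD0.le]
        nlinarith
      have h2 : Real.log D ≤ D₂ := (Real.log_le_self hD0.le).trans hDXr
      have h3 : 0 ≤ Real.log D := Real.log_nonneg hD1.le
      have h4 : C1 * √(D : ℝ) * Real.log D ≤ C1 * D₂ * D₂ := by gcongr
      have h5 : (((D₂ ^ 16 : ℕ)) : ℝ) = (D₂ : ℝ) ^ 16 := by push_cast; rfl
      rw [h5, div_le_div_iff₀ (by positivity) (by positivity)]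
      calc C1 * √(D : ℝ) * Real.log D * (D₂ : ℝ) ^ 14 ≤ C1 * D₂ * D₂ * (D₂ : ℝ) ^ 14 := by
            gcongr
        _ = C1 * (D₂ : ℝ) ^ 16 := by ring
    obtain ⟨hla1, hla2⟩ := abs_le.1 hla
    have hSD : c1 / D₂ ≤ Lone D := le_trans (by gcongr) (hSi D hD)
    have hpos : C1 / (D₂ : ℝ) ^ 14 < c1 / D₂ := by
      rw [div_lt_div_iff₀ (by positivity) hXpos]
      have h1 : C1 / c1 < D₂ := by linarith
      rw [div_lt_iff₀ hc1] at h1
      have h2 : C1 < c1 * (D₂ : ℝ) ^ 13 := by nlinarith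
      calc C1 * (D₂ : ℝ) < c1 * (D₂ : ℝ) ^ 13 * D₂ := by
            exact mul_lt_mul_of_pos_right h2 hXpos
        _ = c1 * (D₂ : ℝ) ^ 14 := by ring
    refine ⟨by linarith, fun hc => ?_⟩
    -- the Euler product
    have hfac := fun (p : ℕ) (hp : p.Prime) => Pool.Agent.N478.EX.fac D hp
    have hPP1 : (C3 * D₂)⁻¹ ≤ Pool.Agent.N71.RP.PP (fun n => (chi D n : ℝ)) D₂ := by
      have h1 : ∏ p ∈ (Icc 1 D₂).filter Nat.Prime, (1 - 1 / (p : ℝ)) ≤
          Pool.Agent.N71.RP.PP (fun n => (chi D n : ℝ)) D₂ := by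
        unfold Pool.Agent.N71.RP.PP
        exact Finset.prod_le_prod (fun p hp => (hfac p (mem_filter.1 hp).2).1.le)
          (fun p hp => (hfac p (mem_filter.1 hp).2).2.2.2)
      have h2 := hM D₂ hX2
      rw [prod_inv_distrib] at h2
      have h3 : 0 < ∏ p ∈ (Icc 1 D₂).filter Nat.Prime, (1 - 1 / (p : ℝ)) :=
        prod_pos fun p hp => (hfac p (mem_filter.1 hp).2).1
      have h4 : (∏ p ∈ (Icc 1 D₂).filter Nat.Prime, (1 - 1 / (p : ℝ)))⁻¹ ≤ C3 * D₂ :=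
        h2.trans (mul_le_mul_of_nonneg_left (Real.log_le_self hXpos.le) hC3.le)
      exact (inv_le_of_inv_le₀ h3 h4).trans h1
    have hPP2 : PE D D * cA ≤ Pool.Agent.N71.RP.PP (fun n => (chi D n : ℝ)) D₂ := by
      have h1 : (Icc 1 D₂).filter Nat.Prime =
          (Icc 1 D).filter Nat.Prime ∪ (Ioc D D₂).filter Nat.Prime := by
        ext p
        simp only [mem_union, mem_filter, mem_Icc, mem_Ioc]
        constructor
        · rintro ⟨⟨a1, a2⟩, a3⟩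
          rcases le_or_gt p D with h | h
          · exact Or.inl ⟨⟨a1, h⟩, a3⟩
          · exact Or.inr ⟨⟨h, a2⟩, a3⟩
        · rintro (⟨⟨a1, a2⟩, a3⟩ | ⟨⟨a1, a2⟩, a3⟩)
          · exact ⟨⟨a1, a2.trans hDX⟩, a3⟩
          · exact ⟨⟨by omega, a2⟩, a3⟩
      have h2 : Disjoint ((Icc 1 D).filter Nat.Prime) ((Ioc D D₂).filter Nat.Prime) := by
        rw [Finset.disjoint_left]
        intro p hp hp'
        have a1 := (mem_Icc.1 (mem_filter.1 hp).1).2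
        have a2 := (mem_Ioc.1 (mem_filter.1 hp').1).1
        omega
      unfold Pool.Agent.N71.RP.PP
      rw [h1, Finset.prod_union h2]
      have h3 : cA ≤ ∏ p ∈ (Ioc D D₂).filter Nat.Prime, (1 - (chi D p : ℝ) / p)⁻¹ :=
        (htail D D₂ hD.1 hDX hXA).trans
          (Finset.prod_le_prod (fun p hp => (hfac p (mem_filter.1 hp).2).1.le)
            (fun p hp => (hfac p (mem_filter.1 hp).2).2.2.2))
      exact mul_le_mul_of_nonneg_left h3 (PE_pos D).le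
    have hsm : C1 / (D₂ : ℝ) ^ 14 ≤ c2 / 2 * Pool.Agent.N71.RP.PP (fun n => (chi D n : ℝ)) D₂ := by
      refine le_trans ?_ (mul_le_mul_of_nonneg_left hPP1 (by positivity))
      have h1 : 2 * C3 * C1 / c2 ≤ D₂ := hX1b.trans hXr
      rw [div_le_iff₀ hc2] at h1
      have h2 : 2 * C3 * C1 ≤ (D₂ : ℝ) ^ 13 * c2 := h1.trans (by gcongr)
      have h3 : c2 / 2 * (C3 * (D₂ : ℝ))⁻¹ = c2 / (2 * (C3 * D₂)) := by
        field_simp
      rw [h3, div_le_div_iff₀ (by positivity) (by positivity)]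
      calc C1 * (2 * (C3 * (D₂ : ℝ))) = 2 * C3 * C1 * D₂ := by ring
        _ ≤ (D₂ : ℝ) ^ 13 * c2 * D₂ := by gcongr
        _ = c2 * (D₂ : ℝ) ^ 14 := by ring
    rw [le_div_iff₀ (PE_pos D)]
    have h5 : c2 / 2 * Pool.Agent.N71.RP.PP (fun n => (chi D n : ℝ)) D₂ ≤ Lone D := by
      linarith
    refine le_trans ?_ h5
    calc c2 / 2 * cA * PE D D = c2 / 2 * (PE D D * cA) := by ring
      _ ≤ _ := mul_le_mul_of_nonneg_left hPP2 (by positivity)
  have hA2 : (D₂ : ℝ) ≤ (D₂ : ℝ) ^ A := by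
    calc (D₂ : ℝ) = (D₂ : ℝ) ^ (1 : ℝ) := (Real.rpow_one _).symm
      _ ≤ (D₂ : ℝ) ^ A := Real.rpow_le_rpow_of_exponent_le (by linarith) hA
  obtain ⟨p1, q1⟩ := good D₁ hF₁ h12.le hAA
  obtain ⟨p2, q2⟩ := good D₂ hF₂ le_rfl hA2
  obtain ⟨ch1, ch12⟩ := hCHR D₂ D₁ D₂ hF₁ hF₂ h12.le le_rfl h12.ne
  obtain ⟨ch2, -⟩ := hCHR D₂ D₂ D₁ hF₂ hF₁ le_rfl h12.le h12.ne'
  rcases hcomb D₂ (hX1c.trans hbig) _ _ ch1 ch2 ch12 p1 p2 with h | h
  · exact Or.inl ((min_le_left _ _).trans (q1 h))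
  · exact Or.inr ((min_le_left _ _).trans (q2 h))

end Pool.Agent.N31.RP
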